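import Pool.Agent.MP_5f72fe_nt.H3.SpecC

/-! The Fricke transform of the part with index `1` modulo `3`. -/

namespace Pool.Agent.MP_5f72fe_nt.H1

open Complex
open scoped Real
open Pool.Agent.MP_5f72fe_nt.H3

theorem sm_par {c : ℕ → ℂ} (h : Sm c) (μ : ℕ) : Sm (par μ c) := fun r h0 h1 =>
  (h r h0 h1).of_nonneg_of_le (fun n => by positivity) fun n => by
    refine mul_le_mul_of_nonneg_right ?_ (by positivity)
    unfold par
    split_ifs <;> simp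

theorem hs_par (hS : RowSER) {c : ℕ → ℂ} (h : Sm c) (μ : ℕ) {x : ℂ} (hx : 0 < x.im) :
    HasSum (fun n : ℕ => par μ c n * E (n * x / (4 : ℕ))) (ser 4 (par μ c) x) :=
  (hS.nsum 4 _ x (by norm_num) (sm_par h μ) hx).of_norm.hasSum

theorem shift (hJ : RowJH) {c : ℕ → ℂ} {μ r : ℕ} (h : ∀ n, c n ≠ 0 → n % 2 = μ → n % 4 = r)
    (x : ℂ) (m : ℤ) : ser 4 (par μ c) (x + m) = E (r * m / 4) * ser 4 (par μ c) x := by
  unfold ser
  rw [← tsum_mul_left]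
  refine tsum_congr fun n => ?_
  unfold par
  split_ifs with h1
  · by_cases h2 : c n = 0
    · simp [h2]
    · have h3 : (n : ℂ) = 4 * ((n / 4 : ℕ) : ℂ) + r := by
        rw [← h n h2 h1]
        exact_mod_cast (Nat.div_add_mod n 4).symm
      have h4 : (n : ℂ) * (x + m) / (4 : ℕ) =
          (((n / 4 : ℕ) * m : ℤ) : ℂ) + (r * m / 4 + n * x / (4 : ℕ)) := by
        rw [Int.cast_mul, Int.cast_natCast]
        push_cast
        linear_combination (m / 4 : ℂ) * h3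
      rw [h4, hJ.add, hJ.add, hJ.int]
      ring
  · simp

theorem e_zero (hJ : RowJH) : E 0 = 1 := by simpa using hJ.int 0

theorem third (hJ : RowJH) (n : ℕ) :
    1 + E (-1 / 3) * E (n / 3) + E (1 / 3) * E (-(n / 3)) = if n % 3 = 1 then 3 else 0 := by
  have h3 : (n : ℂ) = 3 * ((n / 3 : ℕ) : ℂ) + (n % 3 : ℕ) := by
    exact_mod_cast (Nat.div_add_mod n 3).symm
  have s3 : ((√3 : ℝ) : ℂ) ^ 2 = 3 := by
    rw [← ofReal_pow, Real.sq_sqrt (by norm_num)]; norm_num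
  have a1 := hJ.quarter.2.2.2
  have a2 : E (-1 / 3) = -1 - E (1 / 3) := by
    have h1 : E (-1 / 3) = E (1 / 3) * E (1 / 3) := by
      rw [← hJ.add, show (1 / 3 + 1 / 3 : ℂ) = -1 / 3 + (1 : ℤ) by norm_num, hJ.add, hJ.int,
        mul_one]
    rw [h1, a1]
    linear_combination (I ^ 2 / 4) * s3 + (3 / 4) * I_sq
  have b1 : E (-1 / 3) * E (n / 3) = E (((n % 3 : ℕ) - 1) / 3) := by
    rw [← hJ.add, show (-1 / 3 + n / 3 : ℂ) = ((n % 3 : ℕ) - 1) / 3 + ((n / 3 : ℕ) : ℤ) by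
      rw [Int.cast_natCast]; linear_combination (1 / 3 : ℂ) * h3, hJ.add, hJ.int, mul_one]
  have b2 : E (1 / 3) * E (-(n / 3)) = E ((1 - (n % 3 : ℕ)) / 3) := by
    rw [← hJ.add, show (1 / 3 + -(n / 3) : ℂ) = (1 - (n % 3 : ℕ)) / 3 + (-((n / 3 : ℕ) : ℤ) : ℤ) by
      rw [Int.cast_neg, Int.cast_natCast]; linear_combination (-1 / 3 : ℂ) * h3, hJ.add, hJ.int,
      mul_one]
  rw [b1, b2]
  have h : n % 3 = 0 ∨ n % 3 = 1 ∨ n % 3 = 2 := by omega
  rcases h with h | h | h <;> rw [h]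
  · rw [if_neg (by norm_num), show (((0 : ℕ) : ℂ) - 1) / 3 = -1 / 3 by norm_num,
      show (1 - ((0 : ℕ) : ℂ)) / 3 = 1 / 3 by norm_num, a2]
    ring
  · rw [if_pos rfl, show (((1 : ℕ) : ℂ) - 1) / 3 = 0 by norm_num,
      show (1 - ((1 : ℕ) : ℂ)) / 3 = 0 by norm_num, e_zero hJ]
    norm_num
  · rw [if_neg (by norm_num), show (((2 : ℕ) : ℂ) - 1) / 3 = 1 / 3 by norm_num,
      show (1 - ((2 : ℕ) : ℂ)) / 3 = -1 / 3 by norm_num, a2]
    ring

theorem avg (hS : RowSER) (hJ : RowJH) {c : ℕ → ℂ} (h : Sm c) (μ : ℕ) {x : ℂ} (hx : 0 < x.im) :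
    ser 12 (par μ (cls1 c)) (3 * x) = (ser 4 (par μ c) x + E (-1 / 3) * ser 4 (par μ c) (x + 4 / 3) +
      E (1 / 3) * ser 4 (par μ c) (x - 4 / 3)) / 3 := by
  have h1 := (((hs_par hS h μ hx).add
    ((hs_par hS h μ (x := x + 4 / 3) (by simpa using hx)).mul_left (E (-1 / 3)))).add
    ((hs_par hS h μ (x := x - 4 / 3) (by simpa using hx)).mul_left (E (1 / 3)))).div_const 3
  refine (h1.congr_fun fun n => ?_).tsum_eq
  rw [show (n : ℂ) * (x + 4 / 3) / (4 : ℕ) = n * x / (4 : ℕ) + n / 3 by push_cast; ring,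
    show (n : ℂ) * (x - 4 / 3) / (4 : ℕ) = n * x / (4 : ℕ) + -(n / 3) by push_cast; ring,
    show (n : ℂ) * (3 * x) / (12 : ℕ) = n * x / (4 : ℕ) by push_cast; ring, hJ.add, hJ.add]
  have h2 := third hJ n
  unfold par cls1
  split_ifs at h2 ⊢
  · linear_combination (-(c n * E (n * x / (4 : ℕ))) / 3) * h2
  · linear_combination (-(c n * E (n * x / (4 : ℕ))) / 3) * h2
  · simp
  · simp

theorem hs_up (hS : RowSER) {d : ℕ → ℂ} (h : Sm d) (μ : ℕ) {x : ℂ} (hx : 0 < x.im) :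
    HasSum (fun n : ℕ => par μ (up 3 d) n * E (n * x / (4 : ℕ))) (ser 4 (par μ d) (3 * x)) := by
  have hi : Function.Injective fun n : ℕ => 3 * n := fun a b hab => by
    simp only at hab
    omega
  refine (hi.hasSum_iff fun n hn => ?_).1
    ((hs_par hS h μ (x := 3 * x) (by simpa using hx)).congr_fun fun n => ?_)
  · have : ¬ 3 ∣ n := fun ⟨m, hm⟩ => hn ⟨m, hm.symm⟩
    simp [par, up, this]
  · simp only [Function.comp_apply, par, up]
    rw [if_pos (dvd_mul_right 3 n), Nat.mul_div_cancel_left _ (by norm_num),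
      show 3 * n % 2 = n % 2 by omega]
    congr 2
    push_cast
    ring

theorem fl (hS : RowSER) (hJ : RowJH) (k : ℕ) {c d : ℕ → ℂ} (h : Sm c) (h' : Sm d) (μ : ℕ) {x : ℂ}
    (hx : 0 < x.im) : ser 4 (par μ (flat k c d)) x = 3 ^ k / (√3 : ℝ) *
      (ser 4 (par μ d) (3 * x) + E (-1 / 3) * I ^ k * ser 4 (par μ c) (x - 4 / 3) +
        E (1 / 3) * (-I) ^ k * ser 4 (par μ c) (x + 4 / 3)) := by
  have h1 := (((hs_up hS h' μ hx).add
    ((hs_par hS h μ (x := x - 4 / 3) (by simpa using hx)).mul_left (E (-1 / 3) * I ^ k))).add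
    ((hs_par hS h μ (x := x + 4 / 3) (by simpa using hx)).mul_left
      (E (1 / 3) * (-I) ^ k))).mul_left (3 ^ k / (√3 : ℝ) : ℂ)
  refine (h1.congr_fun fun n => ?_).tsum_eq
  rw [show (n : ℂ) * (x + 4 / 3) / (4 : ℕ) = n * x / (4 : ℕ) + n / 3 by push_cast; ring,
    show (n : ℂ) * (x - 4 / 3) / (4 : ℕ) = n * x / (4 : ℕ) + -(n / 3) by push_cast; ring,
    hJ.add, hJ.add]
  unfold par flat
  split_ifs
  · rw [show -(1 + (n : ℂ)) / 3 = -1 / 3 + -(n / 3) by ring,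
      show (1 + (n : ℂ)) / 3 = 1 / 3 + n / 3 by ring, hJ.add, hJ.add]
    ring
  · simp

theorem im_pos {x : ℂ} (hx : 0 < x.im) : 0 < (-1 / (3 * x)).im := by
  have h0 : x ≠ 0 := fun h => by simp [h] at hx
  have h1 := normSq_pos.2 h0
  have h2 : 0 < x.im / normSq x := by positivity
  simpa [div_im, neg_div] using h2

theorem key (hJ : RowJH) {k : ℕ} {c d : ℕ → ℂ} (h : V3 k c d) {τ : ℂ} (hτ : 0 < τ.im) (ε : ℤ)
    (hε : ε = 1 ∨ ε = -1) {μ : ℕ} (hμ : μ < 2) :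
    ser 4 (par μ c) (-1 / (9 * τ) + 4 / 3 * ε) = (I * ε) ^ k * ((√3 : ℝ) * Jh τ) ^ (2 * k + 1) *
      ((ser 4 (par 0 c) (τ - 4 / 3 * ε) + (-1) ^ μ * ser 4 (par 1 c) (τ - 4 / 3 * ε)) /
        (√2 : ℝ)) := by
  obtain ⟨-, -, hc, hd, hL⟩ := h
  have s2 : ((√2 : ℝ) : ℂ) ^ 2 = 2 := by
    rw [← ofReal_pow, Real.sq_sqrt (by norm_num)]; norm_num
  have s2' : ((√2 : ℝ) : ℂ) ≠ 0 := fun h => by simp [h] at s2
  have e2 : (ε : ℂ) ^ 2 = 1 := by rcases hε with rfl | rfl <;> simp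
  have hτ0 : τ ≠ 0 := fun h => by simp [h] at hτ
  have h3 : 0 < (3 * τ).im := by simpa using hτ
  have j3 : Jh (3 * τ) = (√3 : ℝ) * Jh τ := by simpa using hJ.scale 3 τ (by norm_num)
  have q4 : E (-1 / 4) = -I := by
    have := hJ.add (1 / 4) (-1 / 4)
    rw [show (1 / 4 + -1 / 4 : ℂ) = 0 by norm_num, e_zero hJ, hJ.quarter.1] at this
    linear_combination I * this + E (-1 / 4) * I_sq
  have q8 : E (-1 / 8) = (1 - I) / (√2 : ℝ) := by
    have := hJ.add (-1 / 4) (1 / 8)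
    rw [show (-1 / 4 + 1 / 8 : ℂ) = -1 / 8 by norm_num, q4, hJ.quarter.2.2.1] at this
    rw [this]
    linear_combination (-1 / (√2 : ℝ) : ℂ) * I_sq
  have a4 : ∀ (r : ℕ) (m : ℤ), r * m = 4 * ε - ε ∨ r * m = -ε → E (r * m / 4) = -(I * ε) := by
    intro r m hm
    have b : E (-ε / 4) = -(I * ε) := by
      rcases hε with rfl | rfl
      · simpa using q4
      · simpa using hJ.quarter.1
    rcases hm with hm | hm
    · have : (r : ℂ) * m = 4 * ε - ε := by exact_mod_cast hm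
      rw [this, show (4 * ε - ε : ℂ) / 4 = -ε / 4 + ε by ring, hJ.add, hJ.int, mul_one, b]
    · have : (r : ℂ) * m = -ε := by exact_mod_cast hm
      rw [this, b]
  have rt : (3 * ε * τ : ℂ) ^ (1 / 2 : ℂ) = (1 + I * ε) / (√2 : ℝ) * ((√3 : ℝ) * Jh τ) := by
    rcases hε with rfl | rfl
    · rw [Int.cast_one, mul_one, mul_one, (hJ.root _ h3).1, j3, hJ.quarter.2.2.1]
    · rw [Int.cast_neg, Int.cast_one, show (3 * -1 * τ : ℂ) = -(3 * τ) by ring, (hJ.root _ h3).2,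
        j3, q8]
      ring
  set t : ℂ := τ - ε / 3 with ht
  have t1 : 0 < t.im := by simpa [ht] using hτ
  have t0 : t ≠ 0 := fun h => by simp [h] at t1
  set W : ℂ := -1 / (3 * t) with hW
  have w1 : 0 < W.im := im_pos t1
  have s1 : 0 < (W + (-ε : ℤ)).im := by simpa using w1
  have hs : W + (-ε : ℤ) = 3 * ε * τ * W := by
    rw [hW]
    push_cast
    field_simp
    rw [ht]
    linear_combination e2
  have w0 : W ≠ 0 := fun h => by simp [h] at w1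
  have ε0 : (ε : ℂ) ≠ 0 := fun h => by simp [h] at e2
  have hj : Jh (W + (-ε : ℤ)) = (1 + I * ε) / (√2 : ℝ) * ((√3 : ℝ) * Jh τ) * Jh W := by
    have := hJ.div _ _ s1 w1
    rw [div_eq_iff (hJ.jne _ w1)] at this
    rw [this, hs, mul_div_cancel_right₀ _ w0, rt]
  have x1 : -1 / (((3 : ℕ) : ℂ) * W) = t := by
    rw [hW]
    push_cast
    field_simp
  have x2 : -1 / (9 * τ) + 4 / 3 * ε = -1 / (((3 : ℕ) : ℂ) * (W + (-ε : ℤ))) + ε := by
    rw [hs, hW]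
    push_cast
    field_simp
    rw [ht]
    linear_combination (9 * τ) * e2
  have x3 : τ - 4 / 3 * ε = t + (-ε : ℤ) := by
    rw [ht]
    push_cast
    ring
  have c0 : ∀ n, c n ≠ 0 → n % 2 = 0 → n % 4 = 0 := fun n h1 h2 => by have := hc n h1; omega
  have c1 : ∀ n, c n ≠ 0 → n % 2 = 1 → n % 4 = 3 := fun n h1 h2 => by have := hc n h1; omega
  have d0 : ∀ n, d n ≠ 0 → n % 2 = 0 → n % 4 = 0 := fun n h1 h2 => by have := hd n h1; omega
  have d1 : ∀ n, d n ≠ 0 → n % 2 = 1 → n % 4 = 1 := fun n h1 h2 => by have := hd n h1; omega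
  have z0 : ∀ m : ℤ, E ((0 : ℕ) * m / 4) = 1 := fun m => by simpa using e_zero hJ
  have g0 := hL W w1 0 (by norm_num)
  have g1 := hL W w1 1 (by norm_num)
  have g2 := hL _ s1 μ hμ
  have a5 : E ((3 : ℕ) * (-ε : ℤ) / 4) = I * ε := by
    have := hJ.add ((3 : ℕ) * (-ε : ℤ) / 4) ((3 : ℕ) * ε / 4)
    rw [show (((3 : ℕ) : ℂ) * (-ε : ℤ) / 4 + (3 : ℕ) * ε / 4) = 0 by push_cast; ring, e_zero hJ,
      a4 3 ε (Or.inl (by ring))] at this
    linear_combination (-(I * ε)) * this +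
      (E ((3 : ℕ) * (-ε : ℤ) / 4) * ε ^ 2) * I_sq - E ((3 : ℕ) * (-ε : ℤ) / 4) * e2
  have p8 : ((1 + I * ε) / (√2 : ℝ)) ^ 2 = I * ε := by
    rw [div_pow, s2]
    linear_combination (ε ^ 2 / 2 : ℂ) * I_sq - (1 / 2 : ℂ) * e2
  rw [x1] at g0 g1
  rw [shift hJ d0, shift hJ d1, z0, a4 1 (-ε) (Or.inr (by ring)), hj, mul_pow, mul_pow _ (_ * _),
    pow_succ ((1 + I * ε) / _), pow_mul, p8] at g2
  rw [x2, x3, shift hJ c0 t, shift hJ c1 t, z0, a5, g0, g1]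
  generalize ((√3 : ℝ) * Jh τ) ^ (2 * k + 1) = A at *
  generalize Jh W ^ (2 * k + 1) = B at *
  generalize (I * ε) ^ k = C at *
  generalize ser 4 (par 0 d) W = D0 at *
  generalize ser 4 (par 1 d) W = D1 at *
  have m : μ = 0 ∨ μ = 1 := by omega
  rcases m with rfl | rfl
  · rw [shift hJ c0, z0, g2]
    linear_combination (-(C * A * B * D1 * ε ^ 2) / (√2 : ℝ) ^ 2) * I_sq +
      (C * A * B * D1 / (√2 : ℝ) ^ 2) * e2
  · rw [shift hJ c1, a4 3 ε (Or.inl (by ring)), g2]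
    linear_combination (-(C * A * B * ε ^ 2 * (D0 + D1 + D1 * I * ε)) / (√2 : ℝ) ^ 2) * I_sq +
      (C * A * B * (D0 + D1 + D1 * I * ε) / (√2 : ℝ) ^ 2) * e2

theorem rowF9 : OfF9 := by
  intro hS hJ k c d h τ hτ μ hμ
  have hτ0 : τ ≠ 0 := fun h => by simp [h] at hτ
  have h3 : 0 < (3 * τ).im := by simpa using hτ
  have j3 : Jh (3 * τ) = (√3 : ℝ) * Jh τ := by simpa using hJ.scale 3 τ (by norm_num)
  have s3 : ((√3 : ℝ) : ℂ) ^ 2 = 3 := by
    rw [← ofReal_pow, Real.sq_sqrt (by norm_num)]; norm_num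
  have s3' : ((√3 : ℝ) : ℂ) ≠ 0 := fun h => by simp [h] at s3
  have k0 := h.2.2.2.2 _ h3 μ hμ
  have k1 := key hJ h hτ 1 (Or.inl rfl) hμ
  have k2 := key hJ h hτ (-1) (Or.inr rfl) hμ
  have x0 : -1 / (((3 : ℕ) : ℂ) * (3 * τ)) = -1 / (9 * τ) := by push_cast; ring
  have x1 : -1 / (((3 : ℕ) : ℂ) * τ) = 3 * (-1 / (9 * τ)) := by push_cast; ring
  have i9 : 0 < (-1 / (9 * τ)).im := by
    have := im_pos h3
    rwa [show 3 * (3 * τ) = 9 * τ by ring] at this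
  simp only [Int.cast_one, mul_one, Int.cast_neg, mul_neg, sub_neg_eq_add, ← sub_eq_add_neg]
    at k1 k2
  rw [x0, j3] at k0
  have p : ((√3 : ℝ) * Jh τ) ^ (2 * k + 1) = 3 * (3 ^ k / (√3 : ℝ)) * Jh τ ^ (2 * k + 1) := by
    rw [mul_pow, pow_succ, pow_mul, s3]
    congr 1
    field_simp
    exact s3
  rw [x1, avg hS hJ h.1 μ i9, k0, k1, k2, fl hS hJ k h.1 h.2.1 0 hτ, fl hS hJ k h.1 h.2.1 1 hτ, p]
  ring

end Pool.Agent.MP_5f72fe_nt.H1
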