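import Pool.Agent.MP_5f72fe_nt.H3.SpecC
import Pool.Agent.MP_6f2ed2_nt.H35.Gamma

/-! The Lipschitz formula. -/

namespace Pool.Agent.MP_5f72fe_nt.H1

open Complex Filter Topology MeasureTheory Set Asymptotics
open scoped Real FourierTransform
open Pool.Agent.MP_5f72fe_nt.H3

theorem tele {y : ℝ} (hy : 0 < y) (n : ℕ) :
    ∑ m ∈ Finset.range (n + 1), y ^ 2 / ((m : ℝ) ^ 2 + y ^ 2) ≤ 1 + 2 * y - 2 * y ^ 2 / (n + y) := by
  induction n with
  | zero =>
    rw [Finset.sum_range_one]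
    simp only [Nat.cast_zero, zero_add, ne_eq, OfNat.ofNat_ne_zero, not_false_eq_true, zero_pow]
    apply le_of_eq
    field_simp
    ring
  | succ n ih =>
    rw [Finset.sum_range_succ]
    have hn : (0 : ℝ) ≤ n := Nat.cast_nonneg n
    have h1 : y ^ 2 / (((n + 1 : ℕ) : ℝ) ^ 2 + y ^ 2) ≤
        2 * y ^ 2 / (n + y) - 2 * y ^ 2 / ((n + 1 : ℕ) + y) := by
      push_cast
      rw [div_sub_div _ _ (by positivity) (by positivity),
        div_le_div_iff₀ (by positivity) (by positivity)]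
      have h2 : (n + y) * (n + 1 + y) ≤ 2 * ((n + 1) ^ 2 + y ^ 2) := by
        nlinarith [sq_nonneg (n + 1 - y)]
      nlinarith [mul_le_mul_of_nonneg_left h2 (sq_nonneg y)]
    linarith

theorem half {y : ℝ} (hy : 0 < y) {g : ℕ → ℝ} {C : ℝ} (hC : 0 ≤ C) (h0 : ∀ m, 0 ≤ g m)
    (h : ∀ m, g m ≤ C * (y ^ 2 / ((m : ℝ) ^ 2 + y ^ 2))) :
    Summable g ∧ ∑' m, g m ≤ C * (1 + 2 * y) := by
  have h1 : ∀ n, ∑ m ∈ Finset.range n, g m ≤ C * (1 + 2 * y) := by
    intro n
    refine (Finset.sum_le_sum fun m _ => h m).trans ?_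
    rw [← Finset.mul_sum]
    refine mul_le_mul_of_nonneg_left ?_ hC
    rcases n with _ | n
    · simp only [Finset.range_zero, Finset.sum_empty]
      positivity
    · have : 0 ≤ 2 * y ^ 2 / (n + y) := by positivity
      linarith [tele hy n]
  exact ⟨summable_of_sum_range_le h0 h1, Real.tsum_le_of_sum_range_le h0 h1⟩

theorem term {s : ℝ} (hs : 2 ≤ s) {w : ℂ} (hw : 0 < w.im) {u : ℝ} (hu : u ^ 2 ≤ w.re ^ 2) :
    ‖w‖ ^ (-s) ≤ w.im ^ (-s) * (w.im ^ 2 / (u ^ 2 + w.im ^ 2)) := by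
  have h1 : w.im ≤ ‖w‖ := (le_abs_self _).trans (abs_im_le_norm w)
  have h0 : 0 < ‖w‖ := hw.trans_le h1
  have h2 : ‖w‖ ^ 2 = w.re ^ 2 + w.im ^ 2 := by
    rw [Complex.sq_norm, normSq_apply]; ring
  have e : ∀ t : ℝ, 0 < t → t ^ (-s) = t ^ (2 - s) / t ^ 2 := fun t ht => by
    rw [show -s = 2 - s - (2 : ℕ) by push_cast; ring, Real.rpow_sub_natCast ht.ne']
  rw [e _ h0, e _ hw, h2, div_mul_div_comm, mul_comm (w.im ^ 2), mul_div_mul_right _ _ (by positivity)]
  exact div_le_div₀ (by positivity) (Real.rpow_le_rpow_of_nonpos hw h1 (by linarith))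
    (by positivity) (by linarith)

theorem lip_abs (s : ℝ) (τ : ℂ) (hs : 2 ≤ s) (hτ : 0 < τ.im) :
    (Summable fun l : ℤ => ‖τ + l‖ ^ (-s)) ∧
      ∑' l : ℤ, ‖τ + l‖ ^ (-s) ≤ τ.im ^ (-s) * (2 + 4 * τ.im) := by
  have f0 := Int.fract_nonneg τ.re
  have f1 := (Int.fract_lt_one τ.re).le
  have hre : ∀ m : ℤ, (τ + ((m - ⌊τ.re⌋ : ℤ) : ℂ)).re = Int.fract τ.re + m := fun m => by
    rw [add_re, intCast_re, Int.fract]
    push_cast
    ring
  have him : ∀ m : ℤ, (τ + (m : ℂ)).im = τ.im := fun m => by simp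
  have hC : 0 ≤ τ.im ^ (-s) := by positivity
  obtain ⟨a1, a2⟩ := half hτ (g := fun m : ℕ => ‖τ + (((m : ℤ) - ⌊τ.re⌋ : ℤ) : ℂ)‖ ^ (-s)) hC
    (fun m => by positivity) fun m => by
      have h := term hs (w := τ + (((m : ℤ) - ⌊τ.re⌋ : ℤ) : ℂ)) (by rwa [him]) (u := m) (by
        rw [hre, Int.cast_natCast]
        exact pow_le_pow_left₀ (Nat.cast_nonneg m) (by linarith) 2)
      rwa [him] at h
  obtain ⟨b1, b2⟩ := half hτ
    (g := fun m : ℕ => ‖τ + ((-((m : ℤ) + 1) - ⌊τ.re⌋ : ℤ) : ℂ)‖ ^ (-s)) hC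
    (fun m => by positivity) fun m => by
      have h := term hs (w := τ + ((-((m : ℤ) + 1) - ⌊τ.re⌋ : ℤ) : ℂ)) (by rwa [him]) (u := m) (by
        rw [hre, ← neg_sq (Int.fract τ.re + _)]
        push_cast
        exact pow_le_pow_left₀ (Nat.cast_nonneg m) (by linarith) 2)
      rwa [him] at h
  have h := HasSum.of_nat_of_neg_add_one
    (f := fun m : ℤ => ‖τ + ((m - ⌊τ.re⌋ : ℤ) : ℂ)‖ ^ (-s)) a1.hasSum b1.hasSum
  have h' := (Equiv.subRight ⌊τ.re⌋).hasSum_iff (f := fun l : ℤ => ‖τ + l‖ ^ (-s)) |>.1 h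
  exact ⟨h'.summable, by rw [h'.tsum_eq]; linarith⟩

theorem gamma_ge {s t : ℝ} (hs : 1 ≤ s) (ht : 0 < t) :
    t ^ (s - 1) * Real.exp (-t) ≤ Real.Gamma s := by
  have hi := Real.GammaIntegral_convergent (s := s) (by linarith)
  have hsub : Ioi t ⊆ Ioi 0 := Ioi_subset_Ioi ht.le
  rw [Real.Gamma_eq_integral (by linarith), ← integral_exp_neg_Ioi, ← integral_const_mul]
  refine le_trans ?_ (setIntegral_mono_set hi ?_ hsub.eventuallyLE)
  · refine setIntegral_mono_on ((integrableOn_exp_neg_Ioi t).const_mul _) (hi.mono_set hsub)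
      measurableSet_Ioi fun u hu => ?_
    rw [mul_comm]
    exact mul_le_mul_of_nonneg_left (Real.rpow_le_rpow ht.le (le_of_lt hu) (by linarith))
      (Real.exp_pos _).le
  · filter_upwards [ae_restrict_mem measurableSet_Ioi] with u hu
    exact mul_nonneg (Real.exp_pos _).le (Real.rpow_nonneg (le_of_lt hu) _)

theorem lip_bound (hJ : RowJH) (s x y : ℝ) (hs : 1 ≤ s) (hx : 0 < x) (hy : 0 < y) :
    ‖cL s‖ * x ^ (s - 1) * Real.exp (-(2 * π * x * y)) ≤
      2 * π * (2 / y) ^ (s - 1) * Real.exp (-(π * x * y)) := by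
  have hp := Real.pi_pos
  have hG := Real.Gamma_pos_of_pos (s := s) (by linarith)
  have h1 : ‖cL s‖ = (2 * π) ^ s / Real.Gamma s := by
    rw [cL, norm_mul, hJ.norm, norm_real, Real.norm_of_nonneg (by positivity)]
    simp
  have h2 := gamma_ge hs (t := π * x * y) (by positivity)
  have h3 : (2 * π) ^ s * x ^ (s - 1) = 2 * π * (2 / y) ^ (s - 1) * (π * x * y) ^ (s - 1) := by
    rw [mul_assoc (2 * π), ← Real.mul_rpow (by positivity) (by positivity),
      show 2 / y * (π * x * y) = 2 * π * x by field_simp,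
      Real.mul_rpow (x := 2 * π) (by positivity) hx.le, Real.rpow_sub_one (x := 2 * π) (by positivity)]
    field_simp
  rw [h1, div_mul_eq_mul_div, div_mul_eq_mul_div, div_le_iff₀ hG, h3,
    show -(2 * π * x * y) = -(π * x * y) + -(π * x * y) by ring, Real.exp_add]
  have h4 := mul_le_mul_of_nonneg_left h2
    (show 0 ≤ 2 * π * (2 / y) ^ (s - 1) * Real.exp (-(π * x * y)) by positivity)
  linarith

theorem lip_nat (k : ℕ) : cL (k + 1 : ℕ) = (-2 * π * I) ^ (k + 1) / (k.factorial : ℂ) := by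
  have h1 : E (-((k + 1 : ℕ) : ℝ) / 4) = (-I) ^ (k + 1) := by
    rw [← exp_neg_pi_div_two_mul_I, ← exp_nat_mul, E]
    congr 1
    push_cast
    ring
  rw [cL, h1, Real.rpow_natCast, Nat.cast_succ, Real.Gamma_nat_eq_factorial,
    show (-2 * π * I : ℂ) = 2 * π * -I by ring, mul_pow _ (-I)]
  push_cast
  ring

theorem pw {s : ℝ} (hs : 0 < s) {w : ℂ} (hw : 0 < w.im) :
    cL s * ((2 * π * (-I * w)) ^ (-s : ℂ) * Gamma s) = w ^ (-s : ℂ) := by
  have hp := Real.pi_pos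
  have hw0 : w ≠ 0 := fun h => by simp [h] at hw
  have hG : (Real.Gamma s : ℂ) ≠ 0 := ofReal_ne_zero.2 (Real.Gamma_pos_of_pos hs).ne'
  have h0 : -I * w ≠ 0 := mul_ne_zero (neg_ne_zero.2 I_ne_zero) hw0
  have h1 : log (-I * w) = log w + -π / 2 * I := by
    have a0 : 0 ≤ arg w := arg_nonneg_iff.2 hw.le
    have a1 := arg_le_pi w
    rw [← log_exp (x := log w + -π / 2 * I), exp_add, exp_log hw0, exp_neg_pi_div_two_mul_I,
      mul_comm]
    · simp [log_im]
      linarith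
    · simp [log_im]
      linarith
  have h2 : (2 * π * (-I * w) : ℂ) = ((2 * π : ℝ) : ℂ) * (-I * w) := by push_cast; ring
  rw [h2, cpow_def_of_ne_zero (mul_ne_zero (ofReal_ne_zero.2 (by positivity)) h0),
    log_ofReal_mul (by positivity) h0, h1, cpow_def_of_ne_zero hw0, Gamma_ofReal, cL,
    Real.rpow_def_of_pos (by positivity), ofReal_div, ofReal_exp, E]
  have h3 : cexp (log w * -s) = cexp ((Real.log (2 * π) * s : ℝ) : ℂ) *
      cexp (2 * π * I * (-s / 4)) * cexp ((Real.log (2 * π) + (log w + -π / 2 * I)) * -s) := by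
    rw [← exp_add, ← exp_add]
    congr 1
    push_cast
    ring
  rw [h3]
  field_simp

/-- the function in the Poisson formula -/
noncomputable def gf (s : ℝ) (τ : ℂ) (x : ℝ) : ℂ := ((max x 0) ^ (s - 1) : ℝ) * E (x * τ)

theorem gf_neg {s : ℝ} (hs : 2 ≤ s) (τ : ℂ) {x : ℝ} (hx : x ≤ 0) : gf s τ x = 0 := by
  rw [gf, max_eq_right hx, Real.zero_rpow (by linarith), ofReal_zero, zero_mul]

theorem gf_cont {s : ℝ} (hs : 2 ≤ s) (τ : ℂ) : Continuous (gf s τ) := by
  unfold gf E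
  exact (continuous_ofReal.comp ((continuous_id.max continuous_const).rpow_const
    fun _ => Or.inr (by linarith))).mul (by fun_prop)

theorem gf_decay (hJ : RowJH) {s : ℝ} (hs : 2 ≤ s) {τ : ℂ} (hτ : 0 < τ.im) :
    gf s τ =O[cocompact ℝ] fun x : ℝ => |x| ^ (-2 : ℝ) := by
  have hp := Real.pi_pos
  rw [cocompact_eq_atBot_atTop, isBigO_sup]
  constructor
  · refine IsBigO.of_bound 0 ?_
    filter_upwards [eventually_le_atBot 0] with x hx
    simp [gf_neg hs τ hx]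
  · refine IsBigO.of_bound 1 ?_
    filter_upwards [eventually_gt_atTop 0, (isLittleO_exp_neg_mul_rpow_atTop
      (a := 2 * π * τ.im) (by positivity) (-s - 1)).bound one_pos] with x hx h
    rw [Real.norm_of_nonneg (Real.exp_pos _).le, Real.norm_of_nonneg (by positivity), one_mul] at h
    rw [gf, max_eq_left hx.le, norm_mul, hJ.norm, norm_real, Real.norm_of_nonneg (by positivity),
      Real.norm_of_nonneg (by positivity), abs_of_pos hx, one_mul, im_ofReal_mul,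
      show (-2 : ℝ) = s - 1 + (-s - 1) by ring, Real.rpow_add hx,
      show -(2 * π * (x * τ.im)) = -(2 * π * τ.im) * x by ring]
    exact mul_le_mul_of_nonneg_left h (by positivity)

theorem gf_ft {s : ℝ} (hs : 2 ≤ s) {τ : ℂ} (hτ : 0 < τ.im) (ξ : ℝ) :
    cL s * 𝓕 (gf s τ) ξ = (τ - ξ) ^ (-s : ℂ) := by
  have hp := Real.pi_pos
  have hz : 0 < (2 * π * (-I * (τ - ξ)) : ℂ).re := by
    simp
    positivity
  rw [← pw (s := s) (by linarith) (w := τ - ξ) (by simpa using hτ),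
    ← MP_6f2ed2_nt.H35.gamma_cplx (a := s) (by simp; linarith) hz,
    Real.fourier_real_eq_integral_exp_smul,
    ← setIntegral_eq_integral_of_forall_compl_eq_zero (s := Ioi 0)
      fun x hx => by rw [gf_neg hs τ (not_lt.1 hx), smul_zero]]
  congr 1
  refine setIntegral_congr_fun measurableSet_Ioi fun x hx => ?_
  have hx : 0 < x := hx
  simp only [gf, E, smul_eq_mul]
  rw [max_eq_left hx.le, ofReal_cpow hx.le, mul_left_comm, ← exp_add]
  congr 2 <;> push_cast <;> ring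

theorem lip_sum (hJ : RowJH) (s α : ℝ) (τ : ℂ) (hs : 2 ≤ s) (hτ : 0 < τ.im) :
    HasSum (fun r : ℤ => if 0 < r + α then cL s * ((r + α) ^ (s - 1) : ℝ) * E ((r + α) * τ) else 0)
      (∑' l : ℤ, E (-(α * l)) * (τ + l) ^ (-s : ℂ)) := by
  have hp := Real.pi_pos
  have hG := Real.Gamma_pos_of_pos (s := s) (by linarith)
  have hc : cL s ≠ 0 := mul_ne_zero (ofReal_ne_zero.2 (by positivity)) (hJ.ne _)
  have h1 : Summable fun n : ℤ => 𝓕 (gf s τ) n := by
    rw [← summable_mul_left_iff hc]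
    simp only [gf_ft hs hτ]
    refine .of_norm ?_
    refine (((Equiv.neg ℤ).summable_iff.2 (lip_abs s τ hs hτ).1)).congr fun n => ?_
    rw [← ofReal_neg, norm_cpow_real]
    simp [sub_eq_add_neg]
  have h2 : Summable fun n : ℤ => gf s τ (α + n) := by
    have t : Tendsto (fun n : ℤ => α + n) cofinite (cocompact ℝ) :=
      ((Homeomorph.addLeft α).isClosedEmbedding.tendsto_cocompact).comp Int.tendsto_coe_cofinite
    refine summable_of_isBigO ?_ ((gf_decay hJ hs hτ).comp_tendsto t)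
    refine ((Real.summable_one_div_int_add_rpow α 2).2 one_lt_two).congr fun n => ?_
    simp only [Function.comp_apply]
    rw [Real.rpow_neg (abs_nonneg _), one_div, add_comm]
  have h3 := Real.tsum_eq_tsum_fourier_of_rpow_decay_of_summable (gf_cont hs τ) one_lt_two
    (gf_decay hJ hs hτ) h1 α
  have h4 := h2.hasSum.mul_left (cL s)
  rw [h3, ← tsum_mul_left, ← (Equiv.neg ℤ).tsum_eq] at h4
  have e1 : ∀ l : ℤ, cL s * (𝓕 (gf s τ) ((Equiv.neg ℤ l : ℤ) : ℝ) *
      fourier (Equiv.neg ℤ l) (α : UnitAddCircle)) = E (-(α * l)) * (τ + l) ^ (-s : ℂ) := fun l => by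
    rw [← mul_assoc, gf_ft hs hτ, fourier_coe_apply, mul_comm, E, Equiv.neg_apply]
    congr 2 <;> push_cast <;> ring
  rw [tsum_congr e1] at h4
  refine h4.congr_fun fun r => ?_
  split_ifs with h
  · rw [gf, add_comm α, max_eq_left h.le, mul_assoc]
    push_cast
    rfl
  · rw [gf_neg hs τ (by linarith), mul_zero]

theorem rowLIP : OfLIP := fun hJ => ⟨lip_sum hJ, lip_abs, lip_bound hJ, lip_nat⟩

end Pool.Agent.MP_5f72fe_nt.H1
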