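import Pool.Agent.MP_5f72fe_nt.H3.SpecC

/-! Orbits of the unit group on the representations. -/

namespace Pool.Agent.MP_5f72fe_nt.H1

open Pool.Agent.MP_5f72fe_nt.H3

theorem mem_Rp {n : ℕ} {a y b : ℤ} :
    (a, y, b) ∈ Rp n ↔ y ^ 2 + 3 * a ^ 2 + 3 * b ^ 2 = n ∧ y % 2 = b % 2 := by
  simp only [Rp, Finset.mem_filter, Finset.mem_product, Finset.mem_Icc, and_iff_right_iff_imp]
  rintro ⟨h, -⟩
  have k : ∀ x : ℤ, x ^ 2 ≤ n → -(n : ℤ) ≤ x ∧ x ≤ n := fun x hx =>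
    abs_le.1 ((Int.le_self_sq |x|).trans (by rwa [sq_abs]))
  exact ⟨k a (by nlinarith [sq_nonneg a, sq_nonneg y, sq_nonneg b]),
    k y (by nlinarith [sq_nonneg a, sq_nonneg y, sq_nonneg b]),
    k b (by nlinarith [sq_nonneg a, sq_nonneg y, sq_nonneg b])⟩

theorem rp_mod {n : ℕ} (hn : n % 12 = 7) {a y b : ℤ} (h : (a, y, b) ∈ Rp n) :
    a ≠ 0 ∧ ¬ 3 ∣ y := by
  obtain ⟨h1, h2⟩ := mem_Rp.1 h
  constructor
  · rintro rfl
    obtain ⟨t, rfl⟩ : ∃ t, y = b + 2 * t := ⟨(y - b) / 2, by omega⟩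
    have : (n : ℤ) = 4 * (b ^ 2 + b * t + t ^ 2) := by linear_combination -h1
    omega
  · rintro ⟨t, rfl⟩
    have : (n : ℤ) = 3 * (3 * t ^ 2 + a ^ 2 + b ^ 2) := by linear_combination -h1
    omega

theorem two (S : Finset V) (p : V → Prop) [DecidablePred p] (f : V → V) (hf : ∀ v, f (f v) = v)
    (hS : ∀ v ∈ S, f v ∈ S ∧ (p (f v) ↔ ¬ p v)) : S.card = 2 * (S.filter p).card := by
  rw [← Finset.card_filter_add_card_filter_not (s := S) p, two_mul]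
  congr 1
  refine Finset.card_nbij' f f (fun v hv => ?_) (fun v hv => ?_) (fun v _ => hf v) fun v _ => hf v
  · rw [Finset.mem_coe, Finset.mem_filter] at hv ⊢
    exact ⟨(hS v hv.1).1, (hS v hv.1).2.2 hv.2⟩
  · rw [Finset.mem_coe, Finset.mem_filter] at hv ⊢
    exact ⟨(hS v hv.1).1, fun h => (hS v hv.1).2.1 h hv.2⟩

theorem inj {a y b a' y' b' : ℤ} (ha : 0 < a) (ha' : 0 < a') (hb : 3 ∣ b) (hb' : 3 ∣ b')
    (hy : ¬ 3 ∣ y) {u : OO} (hu : nr u = 1) (h : u * emb (a, y, b) = emb (a', y', b') * u) :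
    (a, y, b) = (a', y', b') := by
  obtain ⟨p, q, r, s⟩ := u
  simp only [nr] at hu
  have k : ∀ x : ℤ, 3 * x ^ 2 ≤ 4 → -1 ≤ x ∧ x ≤ 1 := fun x hx => ⟨by nlinarith, by nlinarith⟩
  obtain ⟨p1, p2⟩ := k p (by nlinarith [sq_nonneg (2 * q - p), sq_nonneg (2 * r - s), sq_nonneg s])
  obtain ⟨q1, q2⟩ := k q (by nlinarith [sq_nonneg (2 * p - q), sq_nonneg (2 * r - s), sq_nonneg s])
  obtain ⟨r1, r2⟩ := k r (by nlinarith [sq_nonneg (2 * s - r), sq_nonneg (2 * p - q), sq_nonneg q])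
  obtain ⟨s1, s2⟩ := k s (by nlinarith [sq_nonneg (2 * r - s), sq_nonneg (2 * p - q), sq_nonneg q])
  simp only [emb, QuaternionAlgebra.mk_mul_mk, QuaternionAlgebra.mk.injEq] at h
  simp only [Prod.mk.injEq]
  interval_cases p <;> interval_cases q <;> interval_cases r <;> interval_cases s <;> omega

theorem rowORB : OfORB := by
  intro _ n h ⟨a₀, y₀, b₀⟩ c hn _ h0 hs hc
  have y0 := (rp_mod hn h0).2
  have refl : ∀ a y b : ℤ, (a, y, b) ∈ Rp n → 3 ∣ y - y₀ →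
      (-a, y, -b) ∈ Rp n ∧ c (a, y, b) = c (-a, y, -b) := by
    intro a y b h1 h2
    have h3 : (-a, y, -b) ∈ Rp n := by
      rw [mem_Rp] at h1 ⊢
      exact ⟨by linear_combination h1.1, by omega⟩
    refine ⟨h3, (hc _ h1 _ h3 h2 h2).2 ⟨⟨0, 0, 1, 0⟩, rfl, ?_⟩⟩
    simp only [emb, QuaternionAlgebra.mk_mul_mk, QuaternionAlgebra.mk.injEq]
    omega
  have rot : ∀ a y b : ℤ, (a, y, b) ∈ Rp n → 3 ∣ y - y₀ → ∃ y' b', 3 ∣ y' - y ∧ 3 ∣ b' - b - y ∧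
      (a, y', b') ∈ Rp n ∧ c (a, y, b) = c (a, y', b') := by
    intro a y b h1 h2
    obtain ⟨t, rfl⟩ : ∃ t, y = -b + 2 * t := ⟨(y + b) / 2, by have := (mem_Rp.1 h1).2; omega⟩
    have h3 : (a, 2 * b - t, -t) ∈ Rp n := by
      rw [mem_Rp] at h1 ⊢
      exact ⟨by linear_combination h1.1, by omega⟩
    refine ⟨2 * b - t, -t, by omega, by omega, h3,
      (hc _ h1 _ h3 h2 (by simp only; omega)).2 ⟨⟨0, 1, 0, 0⟩, rfl, ?_⟩⟩
    simp only [emb, QuaternionAlgebra.mk_mul_mk, QuaternionAlgebra.mk.injEq]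
    omega
  have pos : ∀ a y b : ℤ, (a, y, b) ∈ Rp n → 3 ∣ y - y₀ → ∃ y' b', 3 ∣ y' - y₀ ∧ 3 ∣ b' ∧
      (a, y', b') ∈ Rp n ∧ c (a, y, b) = c (a, y', b') := by
    intro a y b h1 h2
    obtain ⟨y1, b1, k1, k2, k3, k4⟩ := rot a y b h1 h2
    obtain ⟨y2, b2, l1, l2, l3, l4⟩ := rot a y1 b1 k3 (by omega)
    have : 3 ∣ b ∨ 3 ∣ b1 ∨ 3 ∣ b2 := by
      have i1 : y₀ % 3 = 1 ∨ y₀ % 3 = 2 := by omega
      have i2 : b % 3 = 0 ∨ b % 3 = 1 ∨ b % 3 = 2 := by omega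
      have i3 : b1 % 3 = (b + y₀) % 3 := by omega
      have i4 : b2 % 3 = (b1 + y₀) % 3 := by omega
      rcases i1 with i1 | i1 <;> rcases i2 with i2 | i2 | i2 <;> omega
    rcases this with h | h | h
    · exact ⟨y, b, h2, h, h1, rfl⟩
    · exact ⟨y1, b1, by omega, h, k3, k4⟩
    · exact ⟨y2, b2, by omega, h, l3, k4.trans l4⟩
  have m0 : ∀ a y b : ℤ, (a, y, b) ∈ Rp0 n ↔ (a, y, b) ∈ Rp n ∧ 3 ∣ b := fun a y b => by
    rw [Rp0, Finset.mem_filter]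
  have e1 := two (Rp0 n) (fun v => 0 < v.1) (fun v => (-v.1, v.2)) (fun v => by simp) (by
    rintro ⟨a, y, b⟩ hv
    rw [m0] at hv
    have := (rp_mod hn hv.1).1
    refine ⟨?_, by simp only; omega⟩
    rw [m0, mem_Rp] at *
    exact ⟨⟨by linear_combination hv.1.1, hv.1.2⟩, hv.2⟩)
  have e2 := two ((Rp0 n).filter fun v => 0 < v.1) (fun v => 3 ∣ v.2.1 - y₀)
    (fun v => (v.1, -v.2.1, v.2.2)) (fun v => by simp) (by
    rintro ⟨a, y, b⟩ hv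
    rw [Finset.mem_filter, m0] at hv
    have := (rp_mod hn hv.1.1).2
    have i1 : y₀ % 3 = 1 ∨ y₀ % 3 = 2 := by omega
    have i2 : y % 3 = 1 ∨ y % 3 = 2 := by omega
    refine ⟨?_, by simp only; rcases i1 with i1 | i1 <;> rcases i2 with i2 | i2 <;> omega⟩
    simp only
    rw [Finset.mem_filter, m0, mem_Rp] at *
    exact ⟨⟨⟨by linear_combination hv.1.1.1, by omega⟩, hv.1.2⟩, hv.2⟩)
  have e3 : (((Rp0 n).filter fun v => 0 < v.1).filter fun v => 3 ∣ v.2.1 - y₀).card =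
      (Finset.univ : Finset (Fin h)).card := by
    refine Finset.card_nbij c (fun _ _ => by simp) ?_ fun i _ => ?_
    · rintro ⟨a, y, b⟩ hv ⟨a', y', b'⟩ hw e
      rw [Finset.mem_coe, Finset.mem_filter, Finset.mem_filter, m0] at hv hw
      obtain ⟨u, hu, k⟩ := (hc _ hv.1.1.1 _ hw.1.1.1 hv.2 hw.2).1 e
      exact inj hv.1.2 hw.1.2 hv.1.1.2 hw.1.1.2 (rp_mod hn hv.1.1.1).2 hu k
    · obtain ⟨⟨a, y, b⟩, h1, h2, rfl⟩ := hs i
      rcases lt_or_gt_of_ne (rp_mod hn h1).1 with ha | ha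
      · obtain ⟨k1, k2⟩ := refl a y b h1 h2
        obtain ⟨y', b', l1, l2, l3, l4⟩ := pos _ _ _ k1 h2
        refine ⟨(-a, y', b'), ?_, (k2.trans l4).symm⟩
        rw [Finset.mem_coe, Finset.mem_filter, Finset.mem_filter, m0]
        exact ⟨⟨⟨l3, l2⟩, neg_pos.2 ha⟩, l1⟩
      · obtain ⟨y', b', l1, l2, l3, l4⟩ := pos _ _ _ h1 h2
        refine ⟨(a, y', b'), ?_, l4.symm⟩
        rw [Finset.mem_coe, Finset.mem_filter, Finset.mem_filter, m0]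
        exact ⟨⟨⟨l3, l2⟩, ha⟩, l1⟩
  rw [e1, e2, e3, Finset.card_univ, Fintype.card_fin]
  ring

end Pool.Agent.MP_5f72fe_nt.H1
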