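import Pool.Agent.MP_5f72fe_nt.H25.SpecD
import Pool.Agent.MP_5f72fe_nt.H99.POL

/-! Symmetries and independence of the harmonic polynomials with the even weight. -/

namespace Pool.Agent.MP_5f72fe_nt.H1

open Pool.Agent.MP_5f72fe_nt.H3 Pool.Agent.MP_5f72fe_nt.H25 Pool.Agent.MP_5f72fe_nt.H99.PolAux

namespace PolpAux

theorem chi3_sq {l : ℤ} (h : ¬ 3 ∣ l) : chi3 l ^ 2 = 1 := by
  rw [chi3_eq]
  have hx : l % 3 = 1 ∨ l % 3 = 2 := by omega
  rcases hx with h | h <;> simp [h]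

theorem chi3_neg (x : ℤ) : chi3 (-x) ^ 2 = chi3 x ^ 2 := by
  rw [← neg_one_mul, chi3_mul, mul_pow, chi3_sq (by norm_num), one_mul]

theorem ep_smul {l : ℤ} (h : ¬ 3 ∣ l) (a y b : ℤ) : ep (l * a, l * y, l * b) = ep (a, y, b) := by
  unfold ep
  have e : 3 ∣ l * y ↔ 3 ∣ y := by
    rw [Int.prime_three.dvd_mul]
    tauto
  simp only [e, chi3_mul, mul_pow, chi3_sq h, one_mul]

theorem ep_per (a y b a' y' b' : ℤ) :
    ep (a + 3 * a', y + 3 * y', b + 3 * b') = ep (a, y, b) := by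
  unfold ep
  have e : 3 ∣ y + 3 * y' ↔ 3 ∣ y := by omega
  simp only [e, chi3_add]

theorem ep_sg (a y b : ℤ) : ep (-2 * a, y + 3 * b, b - y) = ep (a, y, b) := by
  unfold ep
  have e : 3 ∣ y + 3 * b ↔ 3 ∣ y := by omega
  simp only [e]
  split_ifs with h
  · obtain ⟨t, rfl⟩ := h
    rw [show -2 * a = a + 3 * -a by ring, show b - 3 * t = b + 3 * -t by ring, chi3_add, chi3_add]
  · rfl

theorem pow_mod1 (y : ℤ) (m : ℕ) :
    (y ^ 2 + 3) ∣ ((⟨y, 1⟩ : ℤ√(-3)) ^ (m + 1)).re - (2 * y) ^ m * y := by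
  have h : ((y ^ 2 + 3 : ℤ) : ℤ√(-3)) ∣
      (⟨y, 1⟩ : ℤ√(-3)) ^ (m + 1) - (((2 * y) ^ m : ℤ) : ℤ√(-3)) * ⟨y, 1⟩ := by
    have h2 : (⟨y, 1⟩ : ℤ√(-3)) * ⟨y, 1⟩ - ((2 * y : ℤ) : ℤ√(-3)) * ⟨y, 1⟩ =
        -((y ^ 2 + 3 : ℤ) : ℤ√(-3)) := by
      ext
      · simp only [Zsqrtd.re_sub, Zsqrtd.re_mul, Zsqrtd.re_neg, Zsqrtd.re_intCast,
          Zsqrtd.im_intCast]
        ring
      · simp only [Zsqrtd.im_sub, Zsqrtd.im_mul, Zsqrtd.im_neg, Zsqrtd.re_intCast,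
          Zsqrtd.im_intCast]
        ring
    induction m with
    | zero => simp
    | succ m ih =>
      have e : (⟨y, 1⟩ : ℤ√(-3)) ^ (m + 1 + 1) - (((2 * y) ^ (m + 1) : ℤ) : ℤ√(-3)) * ⟨y, 1⟩ =
          ⟨y, 1⟩ * (⟨y, 1⟩ ^ (m + 1) - (((2 * y) ^ m : ℤ) : ℤ√(-3)) * ⟨y, 1⟩) +
            (((2 * y) ^ m : ℤ) : ℤ√(-3)) *
              (⟨y, 1⟩ * ⟨y, 1⟩ - ((2 * y : ℤ) : ℤ√(-3)) * ⟨y, 1⟩) := by
        rw [pow_succ (2 * y : ℤ), Int.cast_mul]
        ring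
      rw [e, h2]
      exact dvd_add (ih.mul_left _) ((dvd_neg.mpr dvd_rfl).mul_left _)
  have h1 := ((Zsqrtd.intCast_dvd _ _).mp h).1
  rwa [Zsqrtd.re_sub, Zsqrtd.re_smul] at h1

theorem pow_mod2 (l : ℕ) : ∃ K : ℤ, K ≠ 0 ∧ ∀ y : ℤ,
    (y ^ 2 + 3) ∣ ((⟨y, 1⟩ : ℤ√(-3)) ^ (6 * l)).re - K := by
  rcases l with _ | l
  · exact ⟨1, one_ne_zero, fun y => by simp⟩
  · refine ⟨2 ^ (6 * l + 5) * (-3) ^ (3 * l + 3), by positivity, fun y => ?_⟩
    have h1 := pow_mod1 y (6 * l + 5)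
    have h2 := (sub_dvd_pow_sub_pow (y ^ 2) (-3) (3 * l + 3)).mul_left (2 ^ (6 * l + 5))
    rw [sub_neg_eq_add] at h2
    have h3 := dvd_add h1 h2
    have e : ((⟨y, 1⟩ : ℤ√(-3)) ^ (6 * l + 5 + 1)).re - (2 * y) ^ (6 * l + 5) * y +
        2 ^ (6 * l + 5) * ((y ^ 2) ^ (3 * l + 3) - (-3) ^ (3 * l + 3)) =
        ((⟨y, 1⟩ : ℤ√(-3)) ^ (6 * (l + 1))).re - 2 ^ (6 * l + 5) * (-3) ^ (3 * l + 3) := by
      rw [show 6 * l + 5 + 1 = 6 * (l + 1) by ring]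
      ring
    rwa [e] at h3

theorem at_zero1 (i m : ℕ) (t : ℤ) : PdP (m + 2 * i) m (0, 3 * t, 1) =
    ((⟨3 * t, 1⟩ : ℤ√(-3)) ^ m).re * (-((m + 2 * i).choose i * (-3) ^ i)) *
      ((3 * t) ^ 2 + 3) ^ i := by
  unfold PdP
  rw [Finset.sum_eq_single i]
  · have e1 : m + 2 * i - i = m + i := by omega
    have e2 : m + 2 * i - m - 2 * i = 0 := by omega
    have e3 : ep (0, 3 * t, 1) = -1 := by simp [ep, chi3_eq]
    simp only [e1, e2, e3, Nat.choose_self]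
    rw [mul_pow (-3 : ℤ)]
    push_cast
    ring
  · intro i' hi' hne
    have h := (Finset.mem_filter.mp hi').2
    rw [mul_zero, zero_pow (by omega), mul_zero]
  · intro h
    exfalso
    apply h
    simp only [Finset.mem_filter, Finset.mem_range]
    omega

theorem ind1 (d : ℕ) (z : Fin (d / 6 + 1) → ℤ) (hj : Even d)
    (h : ∀ v : V, ∑ l, z l * PdP d (6 * l) v = 0) : z = 0 := by
  obtain ⟨c, hc⟩ := hj
  have hP : ∀ (l : Fin (d / 6 + 1)) (t : ℤ), PdP d (6 * l) (0, 3 * t, 1) =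
      ((⟨3 * t, 1⟩ : ℤ√(-3)) ^ (6 * (l : ℕ))).re *
        (-(d.choose (c - 3 * l) * (-3) ^ (c - 3 * (l : ℕ)))) *
        ((3 * t) ^ 2 + 3) ^ (c - 3 * (l : ℕ)) := by
    intro l t
    have hl := l.2
    have e : d = 6 * l + 2 * (c - 3 * l) := by omega
    have := at_zero1 (c - 3 * l) (6 * l) t
    rwa [← e] at this
  have key : ∀ (n : ℕ) (l : Fin (d / 6 + 1)), c - 3 * l = n → z l = 0 := by
    intro n
    induction n using Nat.strong_induction_on with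
    | _ n ih =>
      intro l hl
      obtain ⟨K₀, hK₀, hm⟩ := pow_mod2 l
      set K : ℤ := z l * (-(d.choose n * (-3) ^ n)) * K₀ with hK
      have hd : ∀ t : ℤ, ((3 * t) ^ 2 + 3) ∣ K := by
        intro t
        have h1 := h (0, 3 * t, 1)
        rw [← Finset.add_sum_erase _ _ (Finset.mem_univ l)] at h1
        have h2 : ((3 * t) ^ 2 + 3) ^ (n + 1) ∣
            ∑ x ∈ Finset.univ.erase l, z x * PdP d (6 * x) (0, 3 * t, 1) := by
          refine Finset.dvd_sum fun x hx => ?_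
          have hne : (x : ℕ) ≠ l := fun e => (Finset.mem_erase.mp hx).1 (Fin.ext e)
          have hx2 := x.2
          have hl2 := l.2
          rcases lt_or_gt_of_ne hne with hlt | hlt
          · rw [hP]
            exact ((pow_dvd_pow _ (by omega)).mul_left _).mul_left _
          · rw [ih (c - 3 * x) (by omega) x rfl, zero_mul]
            exact dvd_zero _
        rw [← eq_neg_iff_add_eq_zero] at h1
        rw [← dvd_neg, ← h1, hP, hl, pow_succ', ← mul_assoc] at h2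
        have hpos : ((3 * t) ^ 2 + 3) ^ n ≠ 0 := pow_ne_zero _ (by positivity)
        have h3 := (mul_dvd_mul_iff_right hpos).mp h2
        have h4 := (hm (3 * t)).mul_left (z l * (-(d.choose n * (-3) ^ n)))
        have h5 := dvd_sub h3 h4
        have e : z l * (((⟨3 * t, 1⟩ : ℤ√(-3)) ^ (6 * (l : ℕ))).re * (-(d.choose n * (-3) ^ n))) -
            z l * (-(d.choose n * (-3) ^ n)) *
              (((⟨3 * t, 1⟩ : ℤ√(-3)) ^ (6 * (l : ℕ))).re - K₀) = K := by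
          rw [hK]; ring
        rwa [e] at h5
      have h0 : K = 0 := Int.eq_zero_of_abs_lt_dvd (hd K) (by
        nlinarith [sq_abs K, abs_nonneg K, sq_nonneg (|K| - 1)])
      have hl2 := l.2
      have hch : d.choose n ≠ 0 := (Nat.choose_pos (by omega)).ne'
      rw [hK] at h0
      simpa [hch, hK₀] using h0
  funext l
  exact key _ l rfl

end PolpAux

open PolpAux

theorem rowPOLP : RowPOLP where
  per d m e v w := by
    obtain ⟨a, y, b⟩ := v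
    obtain ⟨a', y', b'⟩ := w
    set N : ℤ := 3 ^ (e + 1) with hN
    have h0 : ∀ x t : ℤ, x + N * t ≡ x [ZMOD N] := fun x t =>
      Int.modEq_iff_dvd.mpr ⟨-t, by ring⟩
    refine Int.ModEq.dvd (Int.ModEq.symm ?_)
    unfold PdP
    simp only [Prod.smul_mk, Prod.mk_add_mk, smul_eq_mul]
    have h1 : ep (a + N * a', y + N * y', b + N * b') = ep (a, y, b) := by
      rw [hN, pow_succ', mul_assoc, mul_assoc, mul_assoc, ep_per]
    have h2 : ((⟨y + N * y', b + N * b'⟩ : ℤ√(-3)) ^ m).re ≡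
        ((⟨y, b⟩ : ℤ√(-3)) ^ m).re [ZMOD N] := by
      have h3 := sub_dvd_pow_sub_pow (⟨y + N * y', b + N * b'⟩ : ℤ√(-3)) ⟨y, b⟩ m
      have h4 : (N : ℤ√(-3)) ∣ (⟨y + N * y', b + N * b'⟩ : ℤ√(-3)) - ⟨y, b⟩ :=
        (Zsqrtd.intCast_dvd _ _).mpr ⟨⟨y', by simp⟩, ⟨b', by simp⟩⟩
      have h5 := ((Zsqrtd.intCast_dvd _ _).mp (h4.trans h3)).1
      rw [Zsqrtd.re_sub] at h5
      exact (Int.modEq_iff_dvd.mpr h5).symm
    rw [h1]
    refine (h2.mul_left _).mul (Int.ModEq.sum fun i _ => ?_)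
    exact (((((h0 y y').pow 2).add (((h0 b b').pow 2).mul_left 3)).mul_left (-3)).pow i).mul_left _
      |>.mul (((h0 a a').mul_left 6).pow _)
  hom d m l v hl := by
    obtain ⟨a, y, b⟩ := v
    unfold PdP
    simp only [Prod.smul_mk, smul_eq_mul]
    have e1 : (⟨l * y, l * b⟩ : ℤ√(-3)) = (l : ℤ√(-3)) * ⟨y, b⟩ := by ext <;> simp
    have e2 : -3 * ((l * y) ^ 2 + 3 * (l * b) ^ 2) = l ^ 2 * (-3 * (y ^ 2 + 3 * b ^ 2)) := by ring
    have e3 : 6 * (l * a) = l * (6 * a) := by ring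
    have h := sum_scale d m l (-3 * (y ^ 2 + 3 * b ^ 2)) (6 * a)
    rw [e1, e2, e3, re_smul, ep_smul hl]
    linear_combination (ep (a, y, b) * ((⟨y, b⟩ : ℤ√(-3)) ^ m).re) * h
  sgnA d m a y b h := by
    unfold PdP
    have e : ep (-a, y, b) = ep (a, y, b) := by simp only [ep, chi3_neg]
    rw [e]
    refine congrArg _ (Finset.sum_congr rfl fun i hi => ?_)
    have h1 := (Finset.mem_filter.mp hi).2
    have h2 : Even (d - m - 2 * i) := Nat.even_iff.mpr (by omega)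
    simp only [mul_neg, h2.neg_pow]
  sgnB d m a y b := by
    unfold PdP
    have e : (⟨y, -b⟩ : ℤ√(-3)) = star ⟨y, b⟩ := rfl
    have e' : ep (a, y, -b) = ep (a, y, b) := by simp only [ep, chi3_neg]
    simp only [e, e', ← star_pow, Zsqrtd.re_star, neg_sq]
  rot d m v h := by
    obtain ⟨a, y, b⟩ := v
    obtain ⟨c, rfl⟩ := h
    unfold PdP sg
    have e0 : (⟨y + 3 * b, b - y⟩ : ℤ√(-3)) ^ 3 = (((-2 : ℤ) : ℤ√(-3)) * ⟨y, b⟩) ^ 3 := by
      ext <;> simp [pow_succ] <;> ring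
    have e1 : (⟨y + 3 * b, b - y⟩ : ℤ√(-3)) ^ (3 * c) =
        (((-2 : ℤ) : ℤ√(-3)) * ⟨y, b⟩) ^ (3 * c) := by
      rw [pow_mul, e0, ← pow_mul]
    have e2 : -3 * ((y + 3 * b) ^ 2 + 3 * (b - y) ^ 2) =
        (-2) ^ 2 * (-3 * (y ^ 2 + 3 * b ^ 2)) := by ring
    have e3 : 6 * (-2 * a) = -2 * (6 * a) := by ring
    have h := sum_scale d (3 * c) (-2) (-3 * (y ^ 2 + 3 * b ^ 2)) (6 * a)
    simp only
    rw [e1, e2, e3, re_smul, ep_sg]
    linear_combination (ep (a, y, b) * ((⟨y, b⟩ : ℤ√(-3)) ^ (3 * c)).re) * h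
  ind := ind1

end Pool.Agent.MP_5f72fe_nt.H1
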